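import Pool.Agent.Run7.h386.GM.Main2

/-!
# Sums of finite sets of positive integers closed under gcd and lcm

Let `A₁, …, A_k` be finite nonempty sets of positive integers, each closed under gcd and lcm, let
`l₁, …, l_k` be nonzero integers and let `B` be a finite nonempty set of integers. Then
`|l₁ A₁ + … + l_k A_k + B| ≥ c (|A₁| ⋯ |A_k| |B|) ^ (1 - ε)`, with `c > 0` which depends only on `k`
and `ε`. With `A_i = A`, `l_i = 1`, `B = {0}`: `|kA| ≥ c |A| ^ (k - ε)`, so the `k`-fold
Erdős–Szemerédi conjecture holds for all sets of positive integers which are closed under gcd and lcm.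

The proof. A finite set `A` closed under gcd and lcm is a distributive lattice whose prime filters are
the sets of the multiples of prime powers. By Dilworth's theorem they are covered by `W` chains, where
`W` is the size of an antichain of prime filters, and an antichain gives a cube in `A`, so that
`2 ^ W ≤ |A|`. A chain gives a coordinate of the members of `A`. (1) If each coordinate takes boundedly
many values then there are at most `C log |A|` prime filters. For most `a` in `A` at least
`τ log |A|` prime filters are maximal among those which do not contain `a`, and `⌊τ log |A|⌋` of them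
are common to a set `X` of at least `|A| ^ (1 - ε)` members `a`. They give a set `P` of
`⌊τ log |A|⌋` pairwise coprime integers with `X · ∏ s ⊆ A` for all `s ⊆ P`, and a lemma on dilates by
products of arbitrary pairwise coprime integers gives `|(∏ s) X + B| ≥ c (|X| |B|) ^ (1 - ε)` for some
`s`. (2) The coordinates are treated one by one: either the fibres of the coordinate are spread, and
then the isoperimetric constants of the fibres add up (up to a constant factor), because the members
with coordinate `≥ v` are multiples of some `Q_v` and those with a smaller coordinate are not; or all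
but a proportion `η` of `A` is in boundedly many fibres, and `A` is restricted to them.
-/

set_option autoImplicit false

open scoped Pointwise

namespace Pool.Agent.Results.MP_120218_co.GcdLcmClosed

/-- `|l₁ A₁ + … + l_k A_k + B| ≥ c (|A₁| ⋯ |A_k| |B|) ^ (1 - ε)` for all finite nonempty sets `A_i` of
positive integers which are closed under gcd and lcm, all nonzero integers `l_i` and all finite
nonempty sets `B` of integers, where `c > 0` depends only on `k` and `ε`. -/
theorem result (k : ℕ) (ε : ℝ) (hε : 0 < ε) :
    ∃ c : ℝ, 0 < c ∧ ∀ (A : Fin k → Finset ℕ) (l : Fin k → ℤ) (B : Finset ℤ),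
      (∀ i, (A i).Nonempty) → (∀ i, 0 ∉ A i) → (∀ i, l i ≠ 0) → B.Nonempty →
      (∀ i, ∀ a ∈ A i, ∀ b ∈ A i, Nat.gcd a b ∈ A i ∧ Nat.lcm a b ∈ A i) →
      c * ((∏ i, ((A i).card : ℝ)) * (B.card : ℝ)) ^ (1 - ε) ≤
        ((((Fintype.piFinset A).image fun f => ∑ i, l i * (f i : ℤ)) + B).card : ℝ) := by
  obtain ⟨c, hc, h⟩ := Pool.Agent.Run7.h386.GM.kfold k (min ε 1) (lt_min hε one_pos)
    (min_le_right _ _)
  refine ⟨c, hc, ?_⟩
  intro A l B hA h0 hl hB hcl
  have h1 := h A l (fun i => ⟨fun a ha h => h0 i (h ▸ ha), fun a ha b hb => (hcl i a ha b hb).1,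
    fun a ha b hb => (hcl i a ha b hb).2⟩) hA hl B hB
  unfold Pool.Agent.Run7.h386.GL.sm at h1
  have hP : (1 : ℝ) ≤ ∏ i, ((A i).card : ℝ) := by
    have h7 : ∏ i, (A i).card ≠ 0 := Finset.prod_ne_zero_iff.2 fun i _ => (hA i).card_pos.ne'
    rw [← Nat.cast_prod]
    exact_mod_cast Nat.one_le_iff_ne_zero.2 h7
  have hB1 : (1 : ℝ) ≤ (B.card : ℝ) := by exact_mod_cast hB.card_pos
  have h2 : ((∏ i, ((A i).card : ℝ)) * (B.card : ℝ)) ^ (1 - ε) ≤
      ((∏ i, ((A i).card : ℝ)) * (B.card : ℝ)) ^ (1 - min ε 1) :=
    Real.rpow_le_rpow_of_exponent_le (by nlinarith) (by linarith [min_le_left ε 1])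
  have h3 := mul_le_mul_of_nonneg_left h2 hc.le
  refine h3.trans ?_
  rw [Real.mul_rpow (by linarith) (by linarith), ← mul_assoc]
  convert h1

end Pool.Agent.Results.MP_120218_co.GcdLcmClosed
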